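import Pool.Agent.Fah.Drop

/-!
# Only finitely many groups have conjugacy classes of distinct sizes (MP_3a125c_al)
-/

set_option autoImplicit false

namespace Pool.Agent.Results.MP_3a125c_al.FinitelyMany

open Pool.Agent.EgO (Ah)

/-- Every nonabelian simple section `S / K` with `K ≤ S ≤ L`, `K` and `L` normal in `G`, `S` normal in `L` (that is, every nonabelian composition factor
of `G`) has order at most `B` or is an alternating group. -/
structure Bd (B : ℕ) (G : Type) [Group G] : Prop where
  simple : ∀ (K L S : Subgroup G) [K.Normal] [L.Normal], K ≤ S → S ≤ L → (∀ l ∈ L, ∀ s ∈ S, l * s * l⁻¹ ∈ S) →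
    IsSimpleGroup (S ⧸ K.subgroupOf S) → (∃ s t : S ⧸ K.subgroupOf S, s * t ≠ t * s) →
    Nat.card (S ⧸ K.subgroupOf S) ≤ B ∨ ∃ n, Nonempty (S ⧸ K.subgroupOf S ≃* alternatingGroup (Fin n))

/-- For every `B` there is a bound for the orders of the finite groups `G` with `Bd B G` such that distinct conjugacy classes of `G` have distinct
sizes. -/
theorem result (B : ℕ) : ∃ C : ℕ, ∀ (G : Type) [Group G] [Finite G], Ah G → Bd B G → Nat.card G ≤ C := by
  obtain ⟨C, hC⟩ := Pool.Agent.Fah.finitely_many B
  exact ⟨C, fun G _ _ hG hB => hC G hG hB.simple⟩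

end Pool.Agent.Results.MP_3a125c_al.FinitelyMany
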