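import Pool.Agent.NbT.Fin

/-!
# MP_3a125c_al: groups with conjugacy classes of distinct sizes, solvable and 2-closed by symmetric

Let `G` be a finite group whose distinct conjugacy classes have distinct sizes, and `N` a solvable normal subgroup
with a normal Sylow `2`-subgroup (a normal `2`-subgroup `T` of odd index) such that `G/N` is isomorphic to `S_n`, `n ≥ 5`.
Then `n` is one of twelve numbers and `|N|` is even.
-/

namespace Pool.Agent.Results.MP_3a125c_al.TwoClosedBySymmetric

theorem result (G : Type) [Group G] [Finite G]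
    (hG : ∀ A B : ConjClasses G, Nat.card A.carrier = Nat.card B.carrier → A = B)
    (N : Subgroup G) [N.Normal] (hs : Group.IsSolvable N)
    (T : Subgroup N) (hTn : T.Normal) (hT : IsPGroup 2 T) (hi : Odd T.index)
    (n : ℕ) (hn : 5 ≤ n) (h : Nonempty (G ⧸ N ≃* Equiv.Perm (Fin n))) :
    n ∈ [6, 7, 9, 10, 13, 14, 15, 16, 19, 20, 22, 31] ∧ Even (Nat.card N) := by
  obtain ⟨e⟩ := h
  obtain ⟨h1, h2⟩ := Pool.Agent.NbT.mainB hG N hs T hTn hT hi n e hn
  refine ⟨?_, h2⟩
  simp only [Pool.Agent.NbT.X3, List.mem_cons, List.not_mem_nil, or_false] at h1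
  simp only [List.mem_cons, List.not_mem_nil, or_false]
  omega

end Pool.Agent.Results.MP_3a125c_al.TwoClosedBySymmetric
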